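import Pool.Agent.NH10.SM.Shift
import Pool.Agent.Y749.Rig.FFf

/-! # The form factor and two incommensurable shifts: limits -/

set_option autoImplicit false

open MeasureTheory Set Filter Topology
open scoped NNReal ENNReal

namespace Pool.Agent.NH10.SM

open Pool.Agent.Y749.Rig

lemma sin_nat_mul (n : ℕ) (y : ℝ) : |Real.sin (n * y)| ≤ n * |Real.sin y| := by
  induction n with
  | zero => simp
  | succ n ih =>
    have e : ((n + 1 : ℕ) : ℝ) * y = n * y + y := by push_cast; ring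
    rw [e, Real.sin_add]
    refine (abs_add_le _ _).trans ?_
    rw [abs_mul, abs_mul]
    have h1 := Real.abs_cos_le_one y
    have h2 := Real.abs_cos_le_one (n * y)
    have h3 := abs_nonneg (Real.sin y)
    have h4 := abs_nonneg (Real.sin (n * y))
    push_cast
    nlinarith [mul_le_mul_of_nonneg_left h1 h4, mul_le_mul_of_nonneg_right h2 h3]

lemma sin_sq_le (y : ℝ) : Real.sin y ^ 2 ≤ y ^ 2 := by
  have h : |Real.sin y| ≤ |y| := Real.abs_sin_le_abs
  exact sq_le_sq.2 h

lemma fl_tr_le {h : ℝ} (hh : 1 ≤ h) (x : ℝ) : fl (tr h) x ≤ 2 / (1 + x ^ 2) := by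
  have hpi := Real.pi_gt_three
  have h0 : 0 < h := by linarith
  rcases eq_or_ne x 0 with hx | hx
  · rw [hx, fl_tr_zero h0]
    norm_num
  · rw [fl_tr h0 hx, div_pow]
    have hx2 : 0 < x ^ 2 := by positivity
    have hy : 0 < (Real.pi * h * x) ^ 2 := by positivity
    have h1 := sin_sq_le (Real.pi * h * x)
    have h2 := Real.sin_sq_le_one (Real.pi * h * x)
    have h3 : x ^ 2 ≤ (Real.pi * h * x) ^ 2 := by
      have h30 : 1 ≤ Real.pi * h := by nlinarith
      have h31 : 1 ≤ (Real.pi * h) ^ 2 := one_le_pow₀ h30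
      rw [mul_pow]
      exact le_mul_of_one_le_left hx2.le h31
    rw [div_le_div_iff₀ hy (by positivity)]
    nlinarith

lemma fl_tr_nat {K : ℝ} (hK : 0 < K) {n : ℕ} (hn : 1 ≤ n) (x : ℝ) :
    fl (tr (n * K)) x ≤ fl (tr K) x := by
  have hn0 : (0 : ℝ) < n := by exact_mod_cast hn
  have hnK : 0 < n * K := by positivity
  have hpi := Real.pi_pos
  rcases eq_or_ne x 0 with hx | hx
  · rw [hx, fl_tr_zero hnK, fl_tr_zero hK]
  · rw [fl_tr hnK hx, fl_tr hK hx, div_pow, div_pow]
    have h1 := sin_nat_mul n (Real.pi * K * x)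
    have e : (n : ℝ) * (Real.pi * K * x) = Real.pi * (n * K) * x := by ring
    rw [e] at h1
    have h2 : Real.sin (Real.pi * (n * K) * x) ^ 2 ≤ (n : ℝ) ^ 2 * Real.sin (Real.pi * K * x) ^ 2 := by
      have h3 := pow_le_pow_left₀ (abs_nonneg _) h1 2
      rwa [sq_abs, mul_pow, sq_abs] at h3
    have e2 : (Real.pi * (n * K) * x) ^ 2 = (n : ℝ) ^ 2 * (Real.pi * K * x) ^ 2 := by ring
    rw [e2]
    have hy : 0 < (Real.pi * K * x) ^ 2 := by positivity
    rw [div_le_div_iff₀ (by positivity) hy]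
    nlinarith

lemma inv_int {C : ℝ} {μ : Measure ℝ} (hC : 0 ≤ C) (h : Bdd C μ) :
    Integrable (fun x : ℝ => 1 / (1 + x ^ 2)) μ := by
  refine Bdd.integrable hC h ?_ ⟨1, fun x => ?_⟩
  · exact continuous_const.div (by fun_prop) fun x => by positivity
  · rw [abs_of_pos (by positivity)]

lemma inv_le {C : ℝ} {μ : Measure ℝ} (hC : 0 ≤ C) (h : Bdd C μ) :
    ∫ x, 1 / (1 + x ^ 2) ∂μ ≤ 2 * C * DD 0 := by
  have h1 := lint_le hC h 0
  have e0 : {x : ℝ | ((0 : ℕ) : ℝ) ≤ |x|} = univ := by ext x; simp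
  rw [e0, setLIntegral_univ] at h1
  rw [integral_eq_lintegral_of_nonneg_ae (ae_of_all _ fun x => by positivity)
    (inv_int hC h).aestronglyMeasurable]
  have h2 : 0 ≤ 2 * C * DD 0 := by
    have := DD_nonneg 0
    positivity
  exact ENNReal.toReal_le_of_le_ofReal h2 h1

lemma pair_int {C T : ℝ} (hC : 0 ≤ C) (hB : Bdd C (Mp T)) {h : ℝ} (hh : 0 < h) :
    Integrable (fun x => fl (tr h) x * ww (2 * Real.pi * x / Real.log T)) (Mp T) := by
  have hfin := Mp_fin T
  refine (Bdd.integrable hC hB (fl_cont (tr_int hh)) (fl_qd (adm_tr hh))).mul_bdd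
    (c := 1) ?_ (ae_of_all _ fun x => ?_)
  · have := ww_cont
    apply Continuous.aestronglyMeasurable
    fun_prop
  · rw [Real.norm_eq_abs, abs_of_pos (ww_pos _)]
    exact ww_le _

/-- the pairings with the hats are bounded -/
lemma tr_bdd : ∃ C : ℝ, 0 < C ∧ ∀ᶠ T in atTop, ∀ h : ℝ, 1 ≤ h → ∫ α, tr h α * Fr T α ≤ C := by
  obtain ⟨C, hC, hB⟩ := Mp_bdd
  have hC0 : 0 ≤ C := by linarith
  have hD := DD_nonneg 0
  refine ⟨2 * (2 * C * DD 0) + 1, by positivity, ?_⟩
  filter_upwards [hB, eventually_ge_atTop 10] with T hT hT10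
  intro h hh
  have h0 : 0 < h := by linarith
  rw [Fr_pair (tr_int h0)]
  have h1 : ∫ x, fl (tr h) x * ww (2 * Real.pi * x / Real.log T) ∂(Mp T) ≤
      ∫ x, 2 * (1 / (1 + x ^ 2)) ∂(Mp T) := by
    refine integral_mono (pair_int hC0 hT h0) ((inv_int hC0 hT).const_mul 2) fun x => ?_
    have h2 := fl_tr_le hh x
    have h3 := fl_tr_nonneg h0 x
    have h4 := ww_le (2 * Real.pi * x / Real.log T)
    have h5 := ww_pos (2 * Real.pi * x / Real.log T)
    calc fl (tr h) x * ww (2 * Real.pi * x / Real.log T) ≤ fl (tr h) x * 1 := by gcongr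
      _ ≤ 2 * (1 / (1 + x ^ 2)) := by rw [mul_one, mul_one_div]; exact h2
  rw [integral_const_mul] at h1
  have h2 := inv_le hC0 hT
  linarith

/-- the pairing with the hats of multiple width -/
lemma tr_nat : ∀ᶠ T in atTop, ∀ K : ℝ, 0 < K → ∀ n : ℕ, 1 ≤ n →
    ∫ α, tr (n * K) α * Fr T α ≤ ∫ α, tr K α * Fr T α := by
  obtain ⟨C, hC, hB⟩ := Mp_bdd
  have hC0 : 0 ≤ C := by linarith
  filter_upwards [hB] with T hT
  intro K hK n hn
  have hn0 : (0 : ℝ) < n := by exact_mod_cast hn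
  have hnK : 0 < n * K := by positivity
  rw [Fr_pair (tr_int hK), Fr_pair (tr_int hnK)]
  refine integral_mono (pair_int hC0 hT hnK) (pair_int hC0 hT hK) fun x => ?_
  exact mul_le_mul_of_nonneg_right (fl_tr_nat hK hn x) (ww_pos _).le

/-- tents -/
noncomputable def Tn (T K : ℝ) : ℝ := 2 * ∫ α in (0 : ℝ)..K, (K - α) * Fr T α

lemma tn_tr {T K : ℝ} (hK : 0 < K) : Tn T K = K ^ 2 * ∫ α, tr K α * Fr T α := by
  have hFc := Fr_cont T
  have hc : Continuous fun α => tr K α * Fr T α := (tr_cont K).mul hFc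
  rw [int_supp hK (fun x hx => by rw [tr_supp hK x hx, zero_mul]),
    ← intervalIntegral.integral_add_adjacent_intervals (b := 0) (hc.intervalIntegrable _ _)
    (hc.intervalIntegrable _ _)]
  have h5 : ∫ α in (-K)..0, tr K α * Fr T α = ∫ α in (0 : ℝ)..K, tr K α * Fr T α := by
    have := intervalIntegral.integral_comp_neg (a := (0 : ℝ)) (b := K)
      (fun α => tr K α * Fr T α)
    rw [neg_zero] at this
    rw [← this]
    refine intervalIntegral.integral_congr fun α _ => ?_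
    show tr K (-α) * Fr T (-α) = tr K α * Fr T α
    rw [tr_even, Fr_even]
  have h6 : ∫ α in (0 : ℝ)..K, tr K α * Fr T α =
      ∫ α in (0 : ℝ)..K, 1 / K ^ 2 * ((K - α) * Fr T α) := by
    refine intervalIntegral.integral_congr fun α hα => ?_
    rw [uIcc_of_le hK.le] at hα
    show tr K α * Fr T α = _
    rw [tr_eq hK hα.1 hα.2]
    field_simp
  rw [h5, h6, intervalIntegral.integral_const_mul]
  unfold Tn
  field_simp
  ring

lemma tn_diff {T : ℝ} (hT : 10 ≤ T) {x y : ℝ} (hx : 0 ≤ x) (hxy : x ≤ y) :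
    2 * (y - x) * (∫ α in (0 : ℝ)..x, Fr T α) ≤ Tn T y - Tn T x ∧
    Tn T y - Tn T x ≤ 2 * (y - x) * ∫ α in (0 : ℝ)..y, Fr T α := by
  have hFc := Fr_cont T
  have hF0 := Fr_nonneg hT
  have hci : ∀ {g : ℝ → ℝ}, Continuous g → ∀ p q : ℝ, IntervalIntegrable g volume p q :=
    fun hg p q => hg.intervalIntegrable p q
  have c1 : Continuous fun α => (y - α) * Fr T α := by fun_prop
  have c2 : Continuous fun α => (x - α) * Fr T α := by fun_prop
  have e1 : ∫ α in (0 : ℝ)..y, (y - α) * Fr T α = (∫ α in (0 : ℝ)..x, (y - α) * Fr T α) +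
      ∫ α in x..y, (y - α) * Fr T α :=
    (intervalIntegral.integral_add_adjacent_intervals (hci c1 _ _) (hci c1 _ _)).symm
  have e2 : (∫ α in (0 : ℝ)..x, (y - α) * Fr T α) - ∫ α in (0 : ℝ)..x, (x - α) * Fr T α =
      (y - x) * ∫ α in (0 : ℝ)..x, Fr T α := by
    rw [← intervalIntegral.integral_sub (hci c1 _ _) (hci c2 _ _),
      ← intervalIntegral.integral_const_mul]
    refine intervalIntegral.integral_congr fun α _ => ?_
    ring
  have e3 : Tn T y - Tn T x = 2 * ((y - x) * ∫ α in (0 : ℝ)..x, Fr T α) +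
      2 * ∫ α in x..y, (y - α) * Fr T α := by
    unfold Tn
    rw [← e2, e1]
    ring
  have h1 : 0 ≤ ∫ α in x..y, (y - α) * Fr T α :=
    intervalIntegral.integral_nonneg hxy fun α hα => mul_nonneg (by linarith [hα.2]) (hF0 α)
  have h2 : ∫ α in x..y, (y - α) * Fr T α ≤ (y - x) * ∫ α in x..y, Fr T α := by
    rw [← intervalIntegral.integral_const_mul]
    refine intervalIntegral.integral_mono_on hxy (hci c1 _ _)
      (hci (continuous_const.mul hFc) _ _) fun α hα => ?_
    exact mul_le_mul_of_nonneg_right (by linarith [hα.1]) (hF0 α)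
  have e4 : (∫ α in (0 : ℝ)..x, Fr T α) + ∫ α in x..y, Fr T α = ∫ α in (0 : ℝ)..y, Fr T α :=
    intervalIntegral.integral_add_adjacent_intervals (hci hFc _ _) (hci hFc _ _)
  constructor
  · rw [e3]
    linarith
  · rw [e3, ← e4]
    linarith

/-- the mass -/
lemma mass_bdd : ∃ C : ℝ, 0 < C ∧ ∀ᶠ T in atTop, ∀ x : ℝ, 1 ≤ x →
    ∫ α in (0 : ℝ)..x, Fr T α ≤ C * x := by
  obtain ⟨C, hC, hB⟩ := tr_bdd
  refine ⟨2 * C, by positivity, ?_⟩
  filter_upwards [hB, eventually_ge_atTop 10] with T hT hT10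
  intro x hx
  have hx0 : 0 < x := by linarith
  have h1 := hT (2 * x) (by linarith)
  have h2 := tn_tr (T := T) (show 0 < 2 * x by linarith)
  have h3 := (tn_diff hT10 hx0.le (show x ≤ 2 * x by linarith)).1
  have h4 := (tn_diff hT10 le_rfl hx0.le).1
  have h5 : Tn T 0 = 0 := by unfold Tn; simp
  rw [intervalIntegral.integral_same, mul_zero, h5, sub_zero] at h4
  have h6 : 2 * (2 * x - x) * (∫ α in (0 : ℝ)..x, Fr T α) ≤ (2 * x) ^ 2 * C := by
    have : (2 * x) ^ 2 * ∫ α, tr (2 * x) α * Fr T α ≤ (2 * x) ^ 2 * C :=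
      mul_le_mul_of_nonneg_left h1 (by positivity)
    linarith
  have h7 : 2 * x * (∫ α in (0 : ℝ)..x, Fr T α) ≤ 2 * x * (2 * C * x) := by nlinarith
  exact le_of_mul_le_mul_left h7 (by positivity)

lemma ult_lim {U : Ultrafilter ℝ} {f : ℝ → ℝ} {B : ℝ} (h : ∀ᶠ T in (U : Filter ℝ), |f T| ≤ B) :
    ∃ L, Tendsto f (U : Filter ℝ) (𝓝 L) := by
  have h1 : ((U.map f : Ultrafilter ℝ) : Filter ℝ) ≤ 𝓟 (Set.Icc (-B) B) := by
    rw [le_principal_iff]
    have h2 : ∀ᶠ T in (U : Filter ℝ), f T ∈ Set.Icc (-B) B := by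
      filter_upwards [h] with T hT
      exact abs_le.1 hT
    exact h2
  obtain ⟨L, _, hL⟩ := isCompact_Icc.ultrafilter_le_nhds _ h1
  exact ⟨L, hL⟩

lemma win_sub {T : ℝ} (a b : ℝ) : ∫ α in a..b, Fr T α =
    (∫ α in (0 : ℝ)..b, Fr T α) - ∫ α in (0 : ℝ)..a, Fr T α :=
  (intervalIntegral.integral_interval_sub_left ((Fr_cont T).intervalIntegrable _ _)
    ((Fr_cont T).intervalIntegrable _ _)).symm

lemma win_mono {T : ℝ} (hT : 10 ≤ T) {x y : ℝ} (hxy : x ≤ y) :
    ∫ α in (0 : ℝ)..x, Fr T α ≤ ∫ α in (0 : ℝ)..y, Fr T α := by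
  have h1 := win_sub (T := T) x y
  have h2 : 0 ≤ ∫ α in x..y, Fr T α :=
    intervalIntegral.integral_nonneg hxy fun α _ => Fr_nonneg hT α
  linarith

/-- the limits of the masses -/
lemma mass_lim {U : Ultrafilter ℝ} (hU : (U : Filter ℝ) ≤ atTop) {x : ℝ} (hx : 0 ≤ x) :
    ∃ L, Tendsto (fun T => ∫ α in (0 : ℝ)..x, Fr T α) (U : Filter ℝ) (𝓝 L) := by
  obtain ⟨C, hC, hB⟩ := mass_bdd
  refine ult_lim (B := C * max x 1) ?_
  filter_upwards [hU hB, hU (eventually_ge_atTop 10)] with T hT hT10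
  have h1 := hT (max x 1) (le_max_right _ _)
  have h2 := win_mono hT10 (le_max_left x 1)
  have h3 : 0 ≤ ∫ α in (0 : ℝ)..x, Fr T α :=
    intervalIntegral.integral_nonneg hx fun α _ => Fr_nonneg hT10 α
  rw [abs_of_nonneg h3]
  linarith

lemma tn_lim {U : Ultrafilter ℝ} (hU : (U : Filter ℝ) ≤ atTop) {K : ℝ} (hK : 0 ≤ K) :
    ∃ L, Tendsto (fun T => Tn T K) (U : Filter ℝ) (𝓝 L) := by
  obtain ⟨C, hC, hB⟩ := mass_bdd
  refine ult_lim (B := 2 * K * (C * max K 1)) ?_
  filter_upwards [hU hB, hU (eventually_ge_atTop 10)] with T hT hT10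
  have h1 := hT (max K 1) (le_max_right _ _)
  have h2 := win_mono hT10 (le_max_left K 1)
  have h3 := tn_diff hT10 le_rfl hK
  have h5 : Tn T 0 = 0 := by unfold Tn; simp
  rw [intervalIntegral.integral_same, mul_zero, h5, sub_zero] at h3
  rw [abs_of_nonneg h3.1]
  refine h3.2.trans ?_
  rw [sub_zero]
  exact mul_le_mul_of_nonneg_left (h2.trans h1) (by positivity)

/-- the tents of width less than one -/
lemma tn_mont (RH : RiemannHypothesis) {K : ℝ} (hK : 0 < K) (hK1 : K < 1) :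
    Tendsto (fun T => Tn T K) atTop (𝓝 (K + K ^ 3 / 3)) := by
  have h1 := Fr_lim (tr_int hK) (fl_qd (adm_tr hK)) le_rfl (test_limRH RH (adm_tr hK) hK hK1)
  have h2 := h1.const_mul (K ^ 2)
  have e : K ^ 2 * cc (tr K) = K + K ^ 3 / 3 := by
    unfold cc
    have e1 : tr K 0 = 1 / K := by unfold tr; simp
    have hc : Continuous fun α => |α| * tr K α := by
      have := tr_cont K
      fun_prop
    have e2 : ∫ α, |α| * tr K α = K / 3 := by
      rw [int_supp hK (fun x hx => by rw [tr_supp hK x hx, mul_zero]),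
        ← intervalIntegral.integral_add_adjacent_intervals (b := 0) (hc.intervalIntegrable _ _)
        (hc.intervalIntegrable _ _)]
      have h5 : ∫ α in (-K)..0, |α| * tr K α = ∫ α in (0 : ℝ)..K, |α| * tr K α := by
        have := intervalIntegral.integral_comp_neg (a := (0 : ℝ)) (b := K)
          (fun α => |α| * tr K α)
        rw [neg_zero] at this
        rw [← this]
        refine intervalIntegral.integral_congr fun α _ => ?_
        show |-α| * tr K (-α) = |α| * tr K α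
        rw [tr_even, abs_neg]
      have h6 : ∫ α in (0 : ℝ)..K, |α| * tr K α =
          ∫ α in (0 : ℝ)..K, (1 / K * α - 1 / K ^ 2 * α ^ 2) := by
        refine intervalIntegral.integral_congr fun α hα => ?_
        rw [uIcc_of_le hK.le] at hα
        show |α| * tr K α = _
        rw [tr_eq hK hα.1 hα.2, abs_of_nonneg hα.1]
        field_simp
      rw [h5, h6, intervalIntegral.integral_sub (by
        apply Continuous.intervalIntegrable; fun_prop) (by
        apply Continuous.intervalIntegrable; fun_prop), intervalIntegral.integral_const_mul,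
        intervalIntegral.integral_const_mul, integral_id, integral_pow]
      field_simp
      norm_num
      ring
    rw [e1, e2]
    field_simp
  rw [e] at h2
  exact h2.congr fun T => (tn_tr hK).symm

end Pool.Agent.NH10.SM
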