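import Pool.Agent.NH10.SM.Core

/-! # The form factor and two incommensurable shifts -/

set_option autoImplicit false

open MeasureTheory Set Filter Topology
open scoped NNReal ENNReal

namespace Pool.Agent.NH10.SM

open Pool.Agent.Y749.Rig

/-- lower bound by telescoping -/
lemma grow {g P : ℝ → ℝ} {c K η : ℝ} (hη : 0 < η) (hP0 : P 0 = 0)
    (hP : ∀ x y, 0 ≤ x → x ≤ y → 2 * (y - x) * g x ≤ P y - P x)
    (hg : ∀ x, 0 ≤ x → c * x - K ≤ g x) (n : ℕ) :
    c * η ^ 2 * (n * (n - 1)) - 2 * K * η * n ≤ P (n * η) := by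
  induction n with
  | zero => simp [hP0]
  | succ n ih =>
    have h1 := hP (n * η) (((n + 1 : ℕ) : ℝ) * η) (by positivity) (by
      push_cast
      nlinarith)
    have h2 := hg (n * η) (by positivity)
    have e : ((n + 1 : ℕ) : ℝ) * η - n * η = η := by push_cast; ring
    rw [e] at h1
    have h3 : 2 * η * (c * (n * η) - K) ≤ 2 * η * g (n * η) :=
      mul_le_mul_of_nonneg_left h2 (by positivity)
    have e2 : c * η ^ 2 * (((n + 1 : ℕ) : ℝ) * (((n + 1 : ℕ) : ℝ) - 1)) -
        2 * K * η * ((n + 1 : ℕ) : ℝ) =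
        (c * η ^ 2 * (n * (n - 1)) - 2 * K * η * n) + 2 * η * (c * (n * η) - K) := by
      push_cast
      ring
    rw [e2]
    linarith

lemma M_le {g P : ℝ → ℝ} {M K : ℝ} (hM : 0 ≤ M) (hK : 0 < K) (hP0 : P 0 = 0)
    (hP : ∀ x y, 0 ≤ x → x ≤ y → 2 * (y - x) * g x ≤ P y - P x) (hg0 : ∀ x, 0 ≤ x → 0 ≤ g x)
    (hg : ∀ ε : ℝ, 0 < ε → ∃ C : ℝ, ∀ x : ℝ, 1 ≤ x → (M - ε) * x - C ≤ g x)
    (hn : ∀ n : ℕ, 1 ≤ n → P (n * K) ≤ n ^ 2 * P K) : M * K ^ 2 ≤ P K := by
  refine le_of_forall_pos_le_add fun ε hε => ?_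
  obtain ⟨e, he⟩ : ∃ e : ℝ, e = ε / (3 * K ^ 2) := ⟨_, rfl⟩
  have he0 : 0 < e := by rw [he]; positivity
  obtain ⟨C, hC⟩ := hg e he0
  obtain ⟨D, hD⟩ : ∃ D : ℝ, D = max C M := ⟨_, rfl⟩
  have hDM : M ≤ D := by rw [hD]; exact le_max_right _ _
  have hDC : C ≤ D := by rw [hD]; exact le_max_left _ _
  have hgD : ∀ x, 0 ≤ x → (M - e) * x - D ≤ g x := by
    intro x hx
    rcases le_or_gt 1 x with h | h
    · have := hC x h
      linarith
    · have := hg0 x hx
      nlinarith
  obtain ⟨n, hn1⟩ := exists_nat_gt (max 1 ((M * K ^ 2 + 2 * D * K) * 3 / ε))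
  have hn2 : (1 : ℝ) < n := (le_max_left _ _).trans_lt hn1
  have hn3 : (M * K ^ 2 + 2 * D * K) * 3 / ε < n := (le_max_right _ _).trans_lt hn1
  rw [div_lt_iff₀ hε] at hn3
  have hn4 : 1 ≤ n := by
    have : (0 : ℝ) < n := by linarith
    exact_mod_cast this
  have h1 := grow hK hP0 hP hgD n
  have h2 := (h1.trans (hn n hn4))
  have hn0 : (0 : ℝ) < n := by linarith
  -- divide by n
  have h3 : (M - e) * K ^ 2 * (n - 1) - 2 * D * K ≤ n * P K := by
    have h4 : n * ((M - e) * K ^ 2 * (n - 1) - 2 * D * K) ≤ n * (n * P K) := by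
      nlinarith
    exact le_of_mul_le_mul_left h4 hn0
  have h5 : e * K ^ 2 = ε / 3 := by rw [he]; field_simp
  have h6 : n * (M * K ^ 2) ≤ n * (P K + ε) := by
    have e1 : (M - e) * K ^ 2 * (n - 1) = n * (M * K ^ 2) - M * K ^ 2 - (n - 1) * (e * K ^ 2) := by
      ring
    rw [e1, h5] at h3
    nlinarith
  exact le_of_mul_le_mul_left h6 hn0

lemma mn_small {a b : ℝ} (ha : 0 ≤ a) (hab : a ≤ b) (hb : b ≤ 1) :
    ∫ α in a..b, mn α = (b ^ 2 - a ^ 2) / 2 := by
  have : ∫ α in a..b, mn α = ∫ α in a..b, α := by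
    refine intervalIntegral.integral_congr fun α hα => ?_
    rw [uIcc_of_le hab] at hα
    show mn α = α
    unfold mn
    rw [abs_of_nonneg (ha.trans hα.1), min_eq_left (hα.2.trans hb)]
  rw [this, integral_id]

lemma mn_low {c b : ℝ} (hc : 0 ≤ c) (hc1 : c ≤ 1) (hcb : c ≤ b) :
    c * (b - c) ≤ ∫ α in c..b, mn α := by
  have h1 : ∫ α in c..b, c = c * (b - c) := by
    rw [intervalIntegral.integral_const, smul_eq_mul]; ring
  rw [← h1]
  refine intervalIntegral.integral_mono_on hcb (by simp) (mn_cont.intervalIntegrable _ _)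
    fun α hα => ?_
  unfold mn
  rw [abs_of_nonneg (hc.trans hα.1)]
  exact le_min hα.1 hc1

lemma mn_add {a b c : ℝ} : (∫ α in a..c, mn α) + ∫ α in c..b, mn α = ∫ α in a..b, mn α :=
  intervalIntegral.integral_add_adjacent_intervals (mn_cont.intervalIntegrable _ _)
    (mn_cont.intervalIntegrable _ _)

/-- the tent of width `K` in terms of two tents of width less than one -/
lemma tn_split {T : ℝ} (hT : 10 ≤ T) {b' b K : ℝ} (hb' : 0 < b') (hb : b' < b) (hK : b ≤ K) :
    Tn T K ≤ (K - b') / (b - b') * Tn T b - ((K - b') / (b - b') - 1) * Tn T b' +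
      2 * ∫ α in b'..K, (K - α) * Fr T α := by
  obtain ⟨A, hA⟩ : ∃ A : ℝ, A = (K - b') / (b - b') := ⟨_, rfl⟩
  have hbb : 0 < b - b' := by linarith
  have hA1 : A * (b - b') = K - b' := by rw [hA]; field_simp
  have hA0 : 0 ≤ A := by rw [hA]; exact div_nonneg (by linarith) hbb.le
  rw [← hA]
  have hFc := Fr_cont T
  have hF0 := Fr_nonneg hT
  have hci : ∀ {g : ℝ → ℝ}, Continuous g → ∀ p q : ℝ, IntervalIntegrable g volume p q :=
    fun hg p q => hg.intervalIntegrable p q
  have c1 : ∀ y : ℝ, Continuous fun α => (y - α) * Fr T α := fun y => by fun_prop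
  unfold Tn
  have e1 : ∫ α in (0 : ℝ)..K, (K - α) * Fr T α = (∫ α in (0 : ℝ)..b', (K - α) * Fr T α) +
      ∫ α in b'..K, (K - α) * Fr T α :=
    (intervalIntegral.integral_add_adjacent_intervals (hci (c1 K) _ _) (hci (c1 K) _ _)).symm
  have e2 : ∫ α in (0 : ℝ)..b, (b - α) * Fr T α = (∫ α in (0 : ℝ)..b', (b - α) * Fr T α) +
      ∫ α in b'..b, (b - α) * Fr T α :=
    (intervalIntegral.integral_add_adjacent_intervals (hci (c1 b) _ _) (hci (c1 b) _ _)).symm
  have e3 : ∫ α in (0 : ℝ)..b', (K - α) * Fr T α = A * (∫ α in (0 : ℝ)..b', (b - α) * Fr T α) -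
      (A - 1) * ∫ α in (0 : ℝ)..b', (b' - α) * Fr T α := by
    rw [← intervalIntegral.integral_const_mul, ← intervalIntegral.integral_const_mul,
      ← intervalIntegral.integral_sub ((hci (c1 b) _ _).const_mul _) ((hci (c1 b') _ _).const_mul _)]
    refine intervalIntegral.integral_congr fun α _ => ?_
    have : K = A * (b - b') + b' := by linarith
    show (K - α) * Fr T α = A * ((b - α) * Fr T α) - (A - 1) * ((b' - α) * Fr T α)
    rw [this]
    ring
  have h1 : 0 ≤ ∫ α in b'..b, (b - α) * Fr T α :=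
    intervalIntegral.integral_nonneg hb.le fun α hα => mul_nonneg (by linarith [hα.2]) (hF0 α)
  rw [e1, e2, e3]
  nlinarith [mul_nonneg hA0 h1]

/-- asymptotic monotonicity along the shift by `h`, on the right of a point `c < 1` -/
def ShiftFr (l : Filter ℝ) (h : ℝ) : Prop := ∃ c : ℝ, c < 1 ∧ ∀ a b : ℝ, c < a → a < b →
  ∀ ε : ℝ, 0 < ε →
  ∀ᶠ T in l, ∫ α in a..b, Fr T α ≤ (∫ α in (a + h)..(b + h), Fr T α) + ε

/-- **Shifts which do not lie in a lattice, along an ultrafilter.** -/
theorem core (RH : RiemannHypothesis) {U : Ultrafilter ℝ} (hU : (U : Filter ℝ) ≤ atTop)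
    {S : Set ℝ} (hS : ∀ h ∈ S, 0 < h)
    (hdense : Dense ((AddSubgroup.closure S : AddSubgroup ℝ) : Set ℝ))
    (hs : ∀ h ∈ S, ShiftFr (U : Filter ℝ) h) :
    ∀ a b : ℝ, 0 < a → a < b → ∀ ε : ℝ, 0 < ε →
      ∀ᶠ T in (U : Filter ℝ), ∫ α in a..b, Fr T α ≤ (∫ α in a..b, mn α) + ε := by
  have h10 : ∀ᶠ T in (U : Filter ℝ), 10 ≤ T := hU (eventually_ge_atTop 10)
  have hg0 : ∀ x : ℝ, ∃ L, Tendsto (fun T => ∫ α in (0 : ℝ)..(max x 0), Fr T α) (U : Filter ℝ)
      (𝓝 L) := fun x => mass_lim hU (le_max_right _ _)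
  choose g hg using hg0
  have hg' : ∀ x : ℝ, 0 ≤ x → Tendsto (fun T => ∫ α in (0 : ℝ)..x, Fr T α) (U : Filter ℝ)
      (𝓝 (g x)) := by
    intro x hx
    have := hg x
    rwa [max_eq_left hx] at this
  have hP0 : ∀ x : ℝ, ∃ L, Tendsto (fun T => Tn T (max x 0)) (U : Filter ℝ) (𝓝 L) :=
    fun x => tn_lim hU (le_max_right _ _)
  choose P hP using hP0
  have hP' : ∀ x : ℝ, 0 ≤ x → Tendsto (fun T => Tn T x) (U : Filter ℝ) (𝓝 (P x)) := by
    intro x hx
    have := hP x
    rwa [max_eq_left hx] at this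
  have hgm : ∀ x y : ℝ, 0 < x → x ≤ y → g x ≤ g y := by
    intro x y hx hxy
    refine le_of_tendsto_of_tendsto (hg' x hx.le) (hg' y (by linarith)) ?_
    filter_upwards [h10] with T hT using win_mono hT hxy
  have hgn : ∀ x : ℝ, 0 ≤ x → 0 ≤ g x := by
    intro x hx
    refine ge_of_tendsto (hg' x hx) ?_
    filter_upwards [h10] with T hT
    exact intervalIntegral.integral_nonneg hx fun α _ => Fr_nonneg hT α
  obtain ⟨C, hC, hB⟩ := mass_bdd
  have hgC : ∀ x : ℝ, 1 ≤ x → g x ≤ C * x := by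
    intro x hx
    refine le_of_tendsto (hg' x (by linarith)) ?_
    filter_upwards [hU hB] with T hT using hT x hx
  have hwin : ∀ x y : ℝ, 0 ≤ x → x ≤ y → Tendsto (fun T => ∫ α in x..y, Fr T α) (U : Filter ℝ)
      (𝓝 (g y - g x)) := by
    intro x y hx hxy
    refine ((hg' y (by linarith)).sub (hg' x hx)).congr fun T => ?_
    exact (win_sub x y).symm
  have hSh : ∀ h ∈ S, ∃ c : ℝ, 0 < c ∧ c < 1 ∧ Sh g h c := by
    intro h hh
    have hh0 := hS h hh
    obtain ⟨c, hc1, hc⟩ := hs h hh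
    obtain ⟨c', hc'⟩ : ∃ c' : ℝ, c' = (max c 0 + 1) / 2 := ⟨_, rfl⟩
    have hm1 : max c 0 < 1 := max_lt hc1 one_pos
    have hm2 : c ≤ max c 0 := le_max_left _ _
    have hm3 : 0 ≤ max c 0 := le_max_right _ _
    refine ⟨c', by rw [hc']; linarith, by rw [hc']; linarith, ?_⟩
    intro x y hx hxy
    have hcx : c < x := by
      rw [hc'] at hx
      linarith
    have hx0 : 0 < x := by
      rw [hc'] at hx
      linarith
    rcases hxy.eq_or_lt with rfl | hxy'
    · simp
    · refine le_of_forall_pos_le_add fun ε hε => ?_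
      exact le_of_tendsto_of_tendsto (hwin x y hx0.le hxy)
        ((hwin (x + h) (y + h) (by linarith) (by linarith)).add_const ε) (hc x y hcx hxy' ε hε)
  have hne : S.Nonempty := by
    by_contra hc
    rw [Set.not_nonempty_iff_eq_empty] at hc
    rw [hc, AddSubgroup.closure_empty] at hdense
    obtain ⟨d, hd, h1, h2⟩ := hdense.exists_between (show (1 : ℝ) < 2 by norm_num)
    have : d = 0 := hd
    linarith
  obtain ⟨h₁, hh1⟩ := hne
  obtain ⟨c, hc0, hc1, hsc⟩ := hSh h₁ hh1
  obtain ⟨M, hM0, hM1, hM2⟩ := set_shift hS hdense hgm hgC (fun h hh => by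
    obtain ⟨c', _, h2, h3⟩ := hSh h hh
    exact fun x y hx hxy => h3 x y (by linarith) hxy) hh1 hc0 hsc
  have hPd : ∀ x y : ℝ, 0 ≤ x → x ≤ y → 2 * (y - x) * g x ≤ P y - P x ∧
      P y - P x ≤ 2 * (y - x) * g y := by
    intro x y hx hxy
    have l1 := (hP' y (by linarith)).sub (hP' x hx)
    constructor
    · refine le_of_tendsto_of_tendsto ((hg' x hx).const_mul (2 * (y - x))) l1 ?_
      filter_upwards [h10] with T hT using (tn_diff hT hx hxy).1
    · refine le_of_tendsto_of_tendsto l1 ((hg' y (by linarith)).const_mul (2 * (y - x))) ?_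
      filter_upwards [h10] with T hT using (tn_diff hT hx hxy).2
  have hPz : P 0 = 0 := by
    refine tendsto_nhds_unique (hP' 0 le_rfl) ?_
    refine tendsto_const_nhds.congr fun T => ?_
    unfold Tn; simp
  have hPn : ∀ K : ℝ, 0 < K → ∀ n : ℕ, 1 ≤ n → P (n * K) ≤ n ^ 2 * P K := by
    intro K hK n hn
    have hn0 : (0 : ℝ) < n := by exact_mod_cast hn
    refine le_of_tendsto_of_tendsto (hP' (n * K) (by positivity))
      ((hP' K hK.le).const_mul ((n : ℝ) ^ 2)) ?_
    filter_upwards [hU tr_nat] with T hT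
    rw [tn_tr (show 0 < n * K by positivity), tn_tr hK]
    have := mul_le_mul_of_nonneg_left (hT K hK n hn) (show 0 ≤ (n * K) ^ 2 by positivity)
    calc _ ≤ _ := this
      _ = _ := by ring
  have hMP : ∀ K : ℝ, 0 < K → M * K ^ 2 ≤ P K := fun K hK =>
    M_le hM0 hK hPz (fun x y hx hxy => (hPd x y hx hxy).1) hgn hM2 (hPn K hK)
  have hPs : ∀ K : ℝ, 0 < K → K < 1 → P K = K + K ^ 3 / 3 := fun K hK hK1 =>
    tendsto_nhds_unique (hP' K hK.le) ((tn_mont RH hK hK1).mono_left hU)
  -- the upper bound for the tents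
  have hPu : ∀ b' K : ℝ, c ≤ b' → b' < 1 → 1 ≤ K →
      P K ≤ 2 * (K - b') + 4 / 3 + M * (K - b') ^ 2 := by
    intro b' K hcb hb1 hK
    have hb' : 0 < b' := by linarith
    refine le_of_forall_pos_le_add fun ε hε => ?_
    obtain ⟨b, hb⟩ : ∃ b : ℝ, b = (1 + b') / 2 := ⟨_, rfl⟩
    have hbb : b' < b := by rw [hb]; linarith
    have hb2 : b < 1 := by rw [hb]; linarith
    have u1 := up_weight (l := (U : Filter ℝ)) (G := Fr) (H := fun _ => M) (f := fun α => K - α)
      (a := b') (b := K) (fun T => Fr_cont T)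
      (by filter_upwards [h10] with T hT using fun α => Fr_nonneg hT α) continuous_const
      (fun _ => hM0) (by linarith) (fun a' b'' h1 h2 h3 e he => by
        have l1 := hwin a' b'' (by linarith) h2.le
        have l2 := hM1 a' b'' (by linarith) h2.le
        have l3 : ∫ α in a'..b'', (fun _ => M) α = M * (b'' - a') := by
          simp only [intervalIntegral.integral_const, smul_eq_mul]; ring
        rw [l3]
        exact l1.eventually (ge_mem_nhds (show g b'' - g a' < M * (b'' - a') + e by linarith)))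
      (by fun_prop) (fun x hx => by linarith [hx.2]) (ε := ε / 2) (by positivity)
    have e1 : ∫ α in b'..K, (K - α) * M = M * (K - b') ^ 2 / 2 := by
      rw [intervalIntegral.integral_mul_const, intervalIntegral.integral_sub (by simp) (by simp),
        intervalIntegral.integral_const, integral_id, smul_eq_mul]
      ring
    have e1' : ∫ α in b'..K, (K - α) * (fun _ => M) α = M * (K - b') ^ 2 / 2 := e1
    rw [e1'] at u1
    have l1 := ((hP' b (by linarith)).const_mul ((K - b') / (b - b'))).sub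
      ((hP' b' hb'.le).const_mul ((K - b') / (b - b') - 1))
    have l2 : P K ≤ ((K - b') / (b - b') * P b - ((K - b') / (b - b') - 1) * P b') +
        (M * (K - b') ^ 2 + ε) := by
      refine le_of_tendsto_of_tendsto (hP' K (by linarith)) (l1.add_const _) ?_
      filter_upwards [u1, h10] with T hT hT10
      have := tn_split hT10 hb' hbb (show b ≤ K by linarith)
      linarith
    rw [hPs b (by linarith) hb2, hPs b' hb' hb1] at l2
    have hA1 : (K - b') / (b - b') * (b - b') = K - b' := by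
      have : b - b' ≠ 0 := by linarith
      field_simp
    obtain ⟨A, hA⟩ : ∃ A : ℝ, A = (K - b') / (b - b') := ⟨_, rfl⟩
    rw [← hA] at l2 hA1
    have e2 : A * (b + b ^ 3 / 3) - (A - 1) * (b' + b' ^ 3 / 3) =
        A * (b - b') * (1 + (b ^ 2 + b * b' + b' ^ 2) / 3) + (b' + b' ^ 3 / 3) := by ring
    rw [e2, hA1] at l2
    have b0 : 0 < b := by linarith
    have q1 : b ^ 2 ≤ 1 := by nlinarith
    have q2 : b * b' ≤ 1 := by nlinarith
    have q3 : b' ^ 2 ≤ 1 := by nlinarith
    have q4 : b' ^ 3 ≤ 1 := pow_le_one₀ hb'.le hb1.le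
    have q5 : (K - b') * (1 + (b ^ 2 + b * b' + b' ^ 2) / 3) ≤ (K - b') * 2 :=
      mul_le_mul_of_nonneg_left (by linarith) (by linarith)
    linarith
  have hM3 : M ≤ 1 := by
    by_contra hcon
    push Not at hcon
    obtain ⟨b', hb'⟩ : ∃ b' : ℝ, b' = max c ((M + 1) / (2 * M)) := ⟨_, rfl⟩
    have hMp : 0 < M := by linarith
    have e1 : (M + 1) / 2 ≤ M * b' := by
      have h1 : (M + 1) / (2 * M) ≤ b' := by rw [hb']; exact le_max_right _ _
      calc (M + 1) / 2 = M * ((M + 1) / (2 * M)) := by field_simp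
        _ ≤ M * b' := mul_le_mul_of_nonneg_left h1 hM0
    have hbc : c ≤ b' := by rw [hb']; exact le_max_left _ _
    have hb0 : 0 < b' := by linarith
    have hb1 : b' < 1 := by
      rw [hb']
      refine max_lt hc1 ?_
      rw [div_lt_one (by positivity)]
      linarith
    obtain ⟨K, hK⟩ : ∃ K : ℝ, K = max 1 ((M + 4) / (M - 1)) := ⟨_, rfl⟩
    have hK1 : 1 ≤ K := by rw [hK]; exact le_max_left _ _
    have hK2 : (M + 4) / (M - 1) ≤ K := by rw [hK]; exact le_max_right _ _
    rw [div_le_iff₀ (by linarith)] at hK2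
    have k1 := hMP K (by linarith)
    have k2 := hPu b' K hbc hb1 hK1
    have k3 : M * K ^ 2 ≤ 2 * (K - b') + 4 / 3 + M * (K - b') ^ 2 := k1.trans k2
    have k4 : M * (K - b') ^ 2 = M * K ^ 2 - 2 * (M * b') * K + M * b' ^ 2 := by ring
    rw [k4] at k3
    have k5 : M * b' ^ 2 ≤ M := by
      calc M * b' ^ 2 ≤ M * 1 := by
            gcongr
            exact pow_le_one₀ hb0.le hb1.le
        _ = _ := mul_one _
    have k6 : (M + 1) / 2 * K ≤ M * b' * K := mul_le_mul_of_nonneg_right e1 (by linarith)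
    nlinarith
  -- windows on the left of one
  have hsmall : ∀ a b : ℝ, 0 < a → a < b → b < 1 → g b - g a ≤ (b ^ 2 - a ^ 2) / 2 := by
    intro a b ha hab hb
    refine le_of_forall_pos_le_add fun ε hε => ?_
    obtain ⟨δ, hδ⟩ : ∃ δ : ℝ, δ = min (a / 2) (min ((1 - b) / 2) ε) := ⟨_, rfl⟩
    have hδ0 : 0 < δ := by
      rw [hδ]
      exact lt_min (by positivity) (lt_min (by linarith) hε)
    have hδ1 : δ ≤ a / 2 := by rw [hδ]; exact min_le_left _ _
    have hδ2 : δ ≤ (1 - b) / 2 := by rw [hδ]; exact (min_le_right _ _).trans (min_le_left _ _)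
    have hδ3 : δ ≤ ε := by rw [hδ]; exact (min_le_right _ _).trans (min_le_right _ _)
    have k1 := (hPd b (b + δ) (by linarith) (by linarith)).1
    have k2 := (hPd (a - δ) a (by linarith) (by linarith)).2
    rw [hPs (b + δ) (by linarith) (by linarith), hPs b (by linarith) hb] at k1
    rw [hPs (a - δ) (by linarith) (by linarith), hPs a ha (by linarith)] at k2
    have k3 : 2 * δ * (g b - g a) ≤ 2 * δ * ((b ^ 2 - a ^ 2) / 2 + (a + b) * δ / 2) := by
      have e1 : 2 * δ * ((b ^ 2 - a ^ 2) / 2 + (a + b) * δ / 2) =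
          (b + δ + (b + δ) ^ 3 / 3 - (b + b ^ 3 / 3)) -
            (a + a ^ 3 / 3 - (a - δ + (a - δ) ^ 3 / 3)) := by ring
      rw [e1]
      have e2 : b + δ - b = δ := by ring
      have e3 : a - (a - δ) = δ := by ring
      rw [e2] at k1
      rw [e3] at k2
      linarith
    have k4 := le_of_mul_le_mul_left k3 (show 0 < 2 * δ by positivity)
    nlinarith
  have hfin : ∀ a b : ℝ, 0 < a → a < b → g b - g a ≤ ∫ α in a..b, mn α := by
    intro a b ha hab
    rcases lt_or_ge b 1 with hb | hb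
    · rw [mn_small ha.le hab.le hb.le]
      exact hsmall a b ha hab hb
    rcases le_or_gt 1 a with ha1 | ha1
    · have k1 := hM1 a b (by linarith) hab.le
      have k2 : ∫ α in a..b, mn α = b - a := by
        have : ∫ α in a..b, mn α = ∫ α in a..b, (1 : ℝ) := by
          refine intervalIntegral.integral_congr fun α hα => ?_
          rw [uIcc_of_le hab.le] at hα
          show mn α = 1
          unfold mn
          rw [abs_of_nonneg (by linarith [hα.1]), min_eq_right (by linarith [hα.1])]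
        rw [this]; simp
      rw [k2]
      nlinarith
    · refine le_of_forall_pos_le_add fun ε hε => ?_
      obtain ⟨e, he⟩ : ∃ e : ℝ, e = max c (max ((1 + a) / 2) (1 - ε / b)) := ⟨_, rfl⟩
      have hb0 : 0 < b := by linarith
      have he0 : c ≤ e := by rw [he]; exact le_max_left _ _
      have he1 : (1 + a) / 2 ≤ e := by
        rw [he]; exact (le_max_left _ _).trans (le_max_right _ _)
      have he2 : 1 - ε / b ≤ e := by
        rw [he]; exact (le_max_right _ _).trans (le_max_right _ _)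
      have he3 : e < 1 := by
        rw [he]
        refine max_lt hc1 (max_lt (by linarith) ?_)
        have : 0 < ε / b := by positivity
        linarith
      have k1 := hsmall a e ha (by linarith) he3
      have k2 := hM1 e b he0 (by linarith)
      have k3 := mn_low (c := e) (b := b) (by linarith) he3.le (by linarith)
      have k4 := mn_add (a := a) (b := b) (c := e)
      rw [mn_small ha.le (by linarith) he3.le] at k4
      have k5 : (1 - e) * b ≤ ε := by
        have : 1 - e ≤ ε / b := by linarith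
        calc (1 - e) * b ≤ ε / b * b := by gcongr
          _ = ε := by field_simp
      nlinarith
  intro a b ha hab ε hε
  exact (hwin a b ha.le hab.le).eventually (ge_mem_nhds (by linarith [hfin a b ha hab]))

theorem up_of_shift (RH : RiemannHypothesis) {l : Filter ℝ} (hl : l ≤ atTop) {S : Set ℝ}
    (hS : ∀ h ∈ S, 0 < h) (hdense : Dense ((AddSubgroup.closure S : AddSubgroup ℝ) : Set ℝ))
    (hs : ∀ h ∈ S, ShiftFr l h) (R : ℝ) : MeanUp l R := by
  intro a b ha hab _ ε hε
  rw [Filter.Eventually, Filter.mem_iff_ultrafilter]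
  intro U hU
  refine core RH (hU.trans hl) hS hdense ?_ a b ha hab ε hε
  intro h hh
  obtain ⟨c, hc, h1⟩ := hs h hh
  exact ⟨c, hc, fun a' b' ha' hab' e he => hU (h1 a' b' ha' hab' e he)⟩

theorem shift_of_mean {l : Filter ℝ} (hm : MeanLim l) {h : ℝ} (hh : 0 < h) : ShiftFr l h := by
  refine ⟨0, one_pos, ?_⟩
  intro a b ha hab ε hε
  have l1 := hm a b ha hab
  have l2 := hm (a + h) (b + h) (by linarith) (by linarith)
  have h3 : ∫ α in a..b, mn α ≤ ∫ α in (a + h)..(b + h), mn α := by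
    have e1 : ∫ α in (a + h)..(b + h), mn α = ∫ α in a..b, mn (α + h) :=
      (intervalIntegral.integral_comp_add_right (fun α => mn α) h).symm
    rw [e1]
    refine intervalIntegral.integral_mono_on hab.le (mn_cont.intervalIntegrable _ _)
      ((mn_cont.comp (continuous_add_const h)).intervalIntegrable _ _) fun α hα => ?_
    unfold mn
    rw [abs_of_nonneg (by linarith [hα.1]), abs_of_nonneg (by linarith [hα.1])]
    exact min_le_min_right _ (by linarith)
  filter_upwards [l1.eventually (ge_mem_nhds (show (∫ α in a..b, mn α) <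
    (∫ α in a..b, mn α) + ε / 2 by linarith)), l2.eventually (le_mem_nhds
    (show (∫ α in (a + h)..(b + h), mn α) - ε / 2 < ∫ α in (a + h)..(b + h), mn α by linarith))]
    with T h4 h5
  linarith

end Pool.Agent.NH10.SM
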