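import Mathlib

/-! # Functions whose increments grow along two incommensurable shifts -/

set_option autoImplicit false

open Filter Topology

namespace Pool.Agent.NH10.SM

/-- increments grow along the shift by `h`, on `[c, ∞)` -/
def Sh (G : ℝ → ℝ) (h c : ℝ) : Prop :=
  ∀ x y : ℝ, c ≤ x → x ≤ y → G y - G x ≤ G (y + h) - G (x + h)

variable {G : ℝ → ℝ} {c : ℝ}

lemma sh_mul {h : ℝ} (hh : 0 < h) (hs : Sh G h c) {x y : ℝ} (hx : c ≤ x) (hxy : x ≤ y) (n : ℕ) :
    G y - G x ≤ G (y + n * h) - G (x + n * h) := by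
  induction n with
  | zero => simp
  | succ n ih =>
    have h0 : 0 ≤ (n : ℝ) * h := by positivity
    have h1 := hs (x + n * h) (y + n * h) (by linarith) (by linarith)
    have e1 : x + n * h + h = x + ((n + 1 : ℕ) : ℝ) * h := by push_cast; ring
    have e2 : y + n * h + h = y + ((n + 1 : ℕ) : ℝ) * h := by push_cast; ring
    rw [e1, e2] at h1
    linarith

/-- telescoping from below -/
lemma tel_low {h : ℝ} (hh : 0 < h) (hs : Sh G h c) {x : ℝ} (hx : c ≤ x) (n : ℕ) :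
    n * (G (x + h) - G x) ≤ G (x + n * h) - G x := by
  induction n with
  | zero => simp
  | succ n ih =>
    have h1 := sh_mul hh hs hx (show x ≤ x + h by linarith) n
    have e1 : x + h + n * h = x + ((n + 1 : ℕ) : ℝ) * h := by push_cast; ring
    rw [e1] at h1
    push_cast at h1 ⊢
    linarith

/-- the increments are bounded -/
lemma inc_bdd {h C : ℝ} (hh : 0 < h) (hs : Sh G h c) (hC : ∀ x, 1 ≤ x → G x ≤ C * x) {x : ℝ}
    (hx : c ≤ x) (hx0 : 0 < x) : G (x + h) - G x ≤ C * h := by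
  by_contra hcon
  push Not at hcon
  obtain ⟨e, he⟩ : ∃ e : ℝ, e = G (x + h) - G x - C * h := ⟨_, rfl⟩
  have he0 : 0 < e := by rw [he]; linarith
  obtain ⟨n, hn⟩ := exists_nat_gt (max ((C * x - G x) / e) (1 / h))
  have hn1 : (C * x - G x) / e < n := (le_max_left _ _).trans_lt hn
  have hn2 : 1 / h < n := (le_max_right _ _).trans_lt hn
  rw [div_lt_iff₀ he0] at hn1
  rw [div_lt_iff₀ hh] at hn2
  have h1 := tel_low hh hs hx n
  have h2 := hC (x + n * h) (by linarith)
  have h3 : G (x + h) - G x = e + C * h := by rw [he]; ring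
  rw [h3] at h1
  nlinarith

/-- the limit of the increments -/
lemma inc_lim {h C : ℝ} (hh : 0 < h) (hs : Sh G h 1) (hm : ∀ x y : ℝ, 0 < x → x ≤ y → G x ≤ G y)
    (hC : ∀ x, 1 ≤ x → G x ≤ C * x) :
    ∃ d : ℝ, 0 ≤ d ∧ (∀ x, 1 ≤ x → G (x + h) - G x ≤ d) ∧
      Tendsto (fun x => G (x + h) - G x) atTop (𝓝 d) := by
  obtain ⟨f, hf⟩ : ∃ f : ℝ → ℝ, ∀ x, f x = G (max x 1 + h) - G (max x 1) := ⟨_, fun _ => rfl⟩
  have hfm : Monotone f := by
    intro x y hxy
    rw [hf, hf]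
    have h1 := hs (max x 1) (max y 1) (le_max_right _ _) (max_le_max_right 1 hxy)
    linarith
  have hfb : BddAbove (Set.range f) := by
    refine ⟨C * h, ?_⟩
    rintro _ ⟨x, rfl⟩
    rw [hf]
    exact inc_bdd hh hs hC (le_max_right _ _) (lt_of_lt_of_le one_pos (le_max_right _ _))
  have hl := tendsto_atTop_ciSup hfm hfb
  refine ⟨⨆ x, f x, ?_, ?_, ?_⟩
  · refine le_trans ?_ (le_ciSup hfb 1)
    rw [hf, max_self]
    have := hm 1 (1 + h) one_pos (by linarith)
    linarith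
  · intro x hx
    have h1 := hs x (max x 1) hx (le_max_left _ _)
    have h2 := le_ciSup hfb x
    rw [hf] at h2
    linarith
  · refine hl.congr' ?_
    filter_upwards [eventually_ge_atTop 1] with x hx
    rw [hf, max_eq_left hx]

/-- telescoping from above -/
lemma tel_up {h d : ℝ} (hh : 0 < h) (hc : ∀ x, 1 ≤ x → G (x + h) - G x ≤ d) {x : ℝ} (hx : 1 ≤ x)
    (n : ℕ) : G (x + n * h) - G x ≤ n * d := by
  induction n with
  | zero => simp
  | succ n ih =>
    have h0 : 0 ≤ (n : ℝ) * h := by positivity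
    have h1 := hc (x + n * h) (by linarith)
    have e1 : x + n * h + h = x + ((n + 1 : ℕ) : ℝ) * h := by push_cast; ring
    rw [e1] at h1
    push_cast at h1 ⊢
    linarith

/-- comparison of two shifts -/
lemma cmp {h₁ h₂ c₁ : ℝ} (hh1 : 0 < h₁) (hh2 : 0 < h₂) (hs2 : Sh G h₂ 1)
    (hm : ∀ x y : ℝ, 0 < x → x ≤ y → G x ≤ G y)
    (hc0 : 0 ≤ c₁) (hc1 : ∀ x, 1 ≤ x → G (x + h₁) - G x ≤ c₁) {x : ℝ} (hx : 1 ≤ x) :
    G (x + h₂) - G x ≤ c₁ / h₁ * h₂ := by
  by_contra hcon
  push Not at hcon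
  obtain ⟨e, he⟩ : ∃ e : ℝ, e = G (x + h₂) - G x - c₁ / h₁ * h₂ := ⟨_, rfl⟩
  have he0 : 0 < e := by rw [he]; linarith
  obtain ⟨n, hn⟩ := exists_nat_gt (c₁ / e)
  rw [div_lt_iff₀ he0] at hn
  have h1 := tel_low hh2 hs2 hx n
  have h2 : G (x + n * h₂) ≤ G (x + (⌈n * h₂ / h₁⌉₊ : ℕ) * h₁) := by
    refine hm _ _ (by positivity) ?_
    have := Nat.le_ceil (n * h₂ / h₁)
    rw [div_le_iff₀ hh1] at this
    linarith
  have h3 := tel_up hh1 hc1 hx ⌈n * h₂ / h₁⌉₊
  have h4 : ((⌈n * h₂ / h₁⌉₊ : ℕ) : ℝ) < n * h₂ / h₁ + 1 := Nat.ceil_lt_add_one (by positivity)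
  have h5 : ((⌈n * h₂ / h₁⌉₊ : ℕ) : ℝ) * c₁ ≤ (n * h₂ / h₁ + 1) * c₁ :=
    mul_le_mul_of_nonneg_right h4.le hc0
  have h6 : G (x + h₂) - G x = e + c₁ / h₁ * h₂ := by rw [he]; ring
  rw [h6] at h1
  have h7 : (n * h₂ / h₁ + 1) * c₁ = n * (c₁ / h₁ * h₂) + c₁ := by ring
  nlinarith

/-- the increments -/
def Dg (G : ℝ → ℝ) (M : ℝ) : AddSubgroup ℝ where
  carrier := {d | Tendsto (fun z => G (z + d) - G z) atTop (𝓝 (M * d))}
  add_mem' := by
    intro a b ha hb
    simp only [Set.mem_ofPred_eq] at ha hb ⊢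
    have h1 : Tendsto (fun z => G (z + a + b) - G (z + a)) atTop (𝓝 (M * b)) :=
      hb.comp (tendsto_atTop_add_const_right atTop a tendsto_id)
    have h2 := h1.add ha
    have e : M * b + M * a = M * (a + b) := by ring
    rw [e] at h2
    refine h2.congr fun z => ?_
    rw [add_assoc z a b]
    ring
  zero_mem' := by simp
  neg_mem' := by
    intro a ha
    simp only [Set.mem_ofPred_eq] at ha ⊢
    have h1 : Tendsto (fun z => G (z + -a + a) - G (z + -a)) atTop (𝓝 (M * a)) :=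
      ha.comp (tendsto_atTop_add_const_right atTop (-a) tendsto_id)
    have h2 := h1.neg
    rw [← mul_neg] at h2
    refine h2.congr fun z => ?_
    rw [neg_add_cancel_right]
    ring

lemma mem_Dg {M d : ℝ} : d ∈ Dg G M ↔ Tendsto (fun z => G (z + d) - G z) atTop (𝓝 (M * d)) :=
  Iff.rfl

/-- **Shifts which do not lie in a lattice.**  If the increments of the nondecreasing function `G`
of at most linear growth grow along the shifts by all `h ∈ S`, and `S` generates a dense group, then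
they are bounded by those of a linear function which is asymptotic to `G`. -/
theorem set_shift {S : Set ℝ} {C : ℝ} (hS : ∀ h ∈ S, 0 < h)
    (hdense : Dense ((AddSubgroup.closure S : AddSubgroup ℝ) : Set ℝ))
    (hm : ∀ x y : ℝ, 0 < x → x ≤ y → G x ≤ G y) (hC : ∀ x, 1 ≤ x → G x ≤ C * x)
    (hs : ∀ h ∈ S, Sh G h 1) {h₁ : ℝ} (hh : h₁ ∈ S) (hc0 : 0 < c) (hsc : Sh G h₁ c) :
    ∃ M : ℝ, 0 ≤ M ∧ (∀ x y : ℝ, c ≤ x → x ≤ y → G y - G x ≤ M * (y - x)) ∧
      ∀ ε : ℝ, 0 < ε → ∃ K : ℝ, ∀ x : ℝ, 1 ≤ x → (M - ε) * x - K ≤ G x := by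
  have hh1 := hS h₁ hh
  have hs1 := hs h₁ hh
  obtain ⟨c₁, hc10, hc11, hc12⟩ := inc_lim hh1 hs1 hm hC
  obtain ⟨M, hM⟩ : ∃ M : ℝ, M = c₁ / h₁ := ⟨_, rfl⟩
  have hM0 : 0 ≤ M := by rw [hM]; positivity
  have e1 : M * h₁ = c₁ := by rw [hM]; field_simp
  have hcl : AddSubgroup.closure S ≤ Dg G M := by
    rw [AddSubgroup.closure_le]
    intro h₂ hh'
    have hh2 := hS h₂ hh'
    have hs2 := hs h₂ hh'
    obtain ⟨c₂, hc20, hc21, hc22⟩ := inc_lim hh2 hs2 hm hC
    have e2 : M * h₂ = c₂ := by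
      refine le_antisymm ?_ ?_
      · have h1 : c₁ ≤ c₂ / h₂ * h₁ := by
          refine le_of_tendsto hc12 ?_
          filter_upwards [eventually_ge_atTop 1] with x hx
          exact cmp hh2 hh1 hs1 hm hc20 hc21 hx
        rw [hM]
        calc c₁ / h₁ * h₂ ≤ (c₂ / h₂ * h₁) / h₁ * h₂ := by gcongr
          _ = c₂ := by field_simp
      · refine le_of_tendsto hc22 ?_
        filter_upwards [eventually_ge_atTop 1] with x hx
        rw [hM]
        exact cmp hh1 hh2 hs2 hm hc10 hc11 hx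
    show h₂ ∈ Dg G M
    rw [mem_Dg, e2]
    exact hc22
  refine ⟨M, hM0, ?_, ?_⟩
  · intro x y hx hxy
    refine le_of_forall_pos_le_add fun ε hε => ?_
    obtain ⟨η, hη⟩ : ∃ η : ℝ, η = ε / (M + 1) := ⟨_, rfl⟩
    have hη0 : 0 < η := by rw [hη]; positivity
    obtain ⟨d, hd, hd3, hd4⟩ := hdense.exists_between (show y - x < y - x + η by linarith)
    have hdD := hcl hd
    rw [mem_Dg] at hdD
    have h3 : Tendsto (fun n : ℕ => G (x + n * h₁ + d) - G (x + n * h₁)) atTop (𝓝 (M * d)) := by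
      refine hdD.comp (tendsto_atTop_add_const_left atTop x ?_)
      exact Tendsto.atTop_mul_const hh1 tendsto_natCast_atTop_atTop
    have h4 : G y - G x ≤ M * d := by
      refine ge_of_tendsto' h3 fun n => ?_
      have h5 := sh_mul hh1 hsc hx hxy n
      have h60 : 0 ≤ (n : ℝ) * h₁ := by positivity
      have h6 : G (y + n * h₁) ≤ G (x + n * h₁ + d) := hm _ _ (by linarith) (by linarith)
      linarith
    have h7 : M * d ≤ M * (y - x + η) := mul_le_mul_of_nonneg_left hd4.le hM0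
    have h8 : M * η ≤ ε := by
      rw [hη]
      calc M * (ε / (M + 1)) = M / (M + 1) * ε := by ring
        _ ≤ 1 * ε := by
            gcongr
            rw [div_le_one (by positivity)]
            linarith
        _ = ε := one_mul _
    nlinarith
  · intro ε hε
    rcases le_or_gt M ε with hMε | hMε
    · refine ⟨-G 1, fun x hx => ?_⟩
      have := hm 1 x one_pos hx
      nlinarith
    · have h1 : ∀ᶠ x in atTop, c₁ - ε * h₁ < G (x + h₁) - G x :=
        hc12.eventually_const_lt (by nlinarith)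
      obtain ⟨x0, hx0⟩ := eventually_atTop.1 h1
      obtain ⟨x1, hx1⟩ : ∃ x1 : ℝ, x1 = max x0 1 := ⟨_, rfl⟩
      have hx11 : 1 ≤ x1 := by rw [hx1]; exact le_max_right _ _
      have hx12 : x0 ≤ x1 := by rw [hx1]; exact le_max_left _ _
      obtain ⟨K, hK⟩ : ∃ K : ℝ, K = (M - ε) * (x1 + h₁) + |G x1| + |G 1| := ⟨_, rfl⟩
      refine ⟨K, fun x hx => ?_⟩
      rcases le_or_gt x x1 with h2 | h2
      · have h3 := hm 1 x one_pos hx
        have h4 := neg_abs_le (G 1)
        have h5 : (M - ε) * x ≤ (M - ε) * (x1 + h₁) := by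
          apply mul_le_mul_of_nonneg_left _ (by linarith)
          linarith
        have h6 := abs_nonneg (G x1)
        linarith
      · obtain ⟨n, hn⟩ : ∃ n : ℕ, n = ⌊(x - x1) / h₁⌋₊ := ⟨_, rfl⟩
        have h3 : (n : ℝ) * h₁ ≤ x - x1 := by
          rw [hn, ← le_div_iff₀ hh1]
          exact Nat.floor_le (div_nonneg (by linarith) hh1.le)
        have h4 : x - x1 < (n + 1) * h₁ := by
          rw [hn, ← div_lt_iff₀ hh1]
          exact Nat.lt_floor_add_one _
        have h5 := tel_low hh1 hs1 hx11 n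
        have h6 := (hx0 x1 hx12).le
        have h7 : (n : ℝ) * (c₁ - ε * h₁) ≤ n * (G (x1 + h₁) - G x1) :=
          mul_le_mul_of_nonneg_left h6 (Nat.cast_nonneg n)
        have h8 := hm (x1 + n * h₁) x (by positivity) (by linarith)
        have h9 : (n : ℝ) * (c₁ - ε * h₁) = (M - ε) * (n * h₁) := by rw [← e1]; ring
        have h10 : (M - ε) * (x - x1 - h₁) ≤ (M - ε) * (n * h₁) := by
          apply mul_le_mul_of_nonneg_left _ (by linarith)
          linarith
        have h11 := neg_abs_le (G x1)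
        have h12 := abs_nonneg (G 1)
        rw [hK]
        nlinarith

end Pool.Agent.NH10.SM
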